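import Mathlib

/-!
Finite order of vanishing of a nonzero power series with bounded coefficients, and the key lemma.
-/

namespace Pool.Agent.P.MP_735d18_an

open Set Filter Topology

variable {𝕜 : Type*} [RCLike 𝕜]

/-- The power series `∑ z ^ (n + 1) c n`. -/
noncomputable def ps (c : ℕ → 𝕜) (z : 𝕜) : 𝕜 := ∑' n, z ^ (n + 1) * c n

theorem ps_analytic {c : ℕ → 𝕜} {B : ℝ} (hB : ∀ n, ‖c n‖ ≤ B) :
    ∃ w : 𝕜 → 𝕜, AnalyticOnNhd 𝕜 w (Metric.ball 0 1) ∧ (∀ z, ps c z = z * w z) ∧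
      ((∀ᶠ z in 𝓝 (0 : 𝕜), w z = 0) → c = 0) := by
  let p := FormalMultilinearSeries.ofScalars 𝕜 c
  have hr : (1 : NNReal) ≤ p.radius := by
    apply p.le_radius_of_bound B
    intro n
    simp only [p, FormalMultilinearSeries.ofScalars_norm]
    simpa using hB n
  have hpos : 0 < p.radius := lt_of_lt_of_le (by simp) hr
  have hp := p.hasFPowerSeriesOnBall hpos
  refine ⟨p.sum, ?_, ?_, ?_⟩
  · refine hp.analyticOnNhd.mono ?_
    intro z hz
    refine lt_of_lt_of_le ?_ hr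
    rw [Metric.mem_ball, dist_zero_right] at hz
    rw [edist_zero_right]
    exact_mod_cast hz
  · intro z
    have := FormalMultilinearSeries.ofScalars_sum_eq c z
    unfold FormalMultilinearSeries.ofScalarsSum at this
    simp only [p]
    rw [this, ← tsum_mul_left]
    unfold ps
    congr 1
    funext n
    rw [smul_eq_mul]
    ring
  · intro h
    have := hp.hasFPowerSeriesAt.locally_zero_iff.1 h
    exact (FormalMultilinearSeries.ofScalars_series_eq_zero 𝕜).1 this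

theorem ps_order {c : ℕ → 𝕜} {B : ℝ} (hB : ∀ n, ‖c n‖ ≤ B) (hc : c ≠ 0) {z₀ : 𝕜}
    (hz : ‖z₀‖ < 1) (h0 : ps c z₀ = 0) : ∃ (m : ℕ) (κ C : ℝ), 0 < κ ∧ 0 < C ∧
      ∀ᶠ z in 𝓝 z₀, κ * ‖z - z₀‖ ^ m ≤ ‖ps c z‖ ∧ ‖ps c z‖ ≤ C * ‖z - z₀‖ := by
  obtain ⟨w, hw, hps, hne⟩ := ps_analytic hB
  have hps' : ps c = fun z => z * w z := funext hps
  have hz' : z₀ ∈ Metric.ball (0 : 𝕜) 1 := by simpa using hz
  have han : AnalyticOnNhd 𝕜 (ps c) (Metric.ball 0 1) := by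
    rw [hps']
    exact analyticOnNhd_id.mul hw
  have hconn : IsPreconnected (Metric.ball (0 : 𝕜) 1) := (convex_ball (0 : 𝕜) 1).isPreconnected
  have hnz : ¬ ∀ᶠ z in 𝓝 z₀, ps c z = 0 := by
    intro h
    have h1 := han.eqOn_zero_of_preconnected_of_eventuallyEq_zero hconn hz' h
    have h2 : ∃ᶠ z in 𝓝[≠] (0 : 𝕜), w z = 0 := by
      apply Filter.Eventually.frequently
      have h3 : ∀ᶠ z in 𝓝[≠] (0 : 𝕜), z ∈ Metric.ball (0 : 𝕜) 1 :=
        nhdsWithin_le_nhds (Metric.ball_mem_nhds _ one_pos)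
      filter_upwards [h3, self_mem_nhdsWithin] with z hz1 hz2
      have h4 := h1 hz1
      rw [hps z] at h4
      exact (mul_eq_zero.1 h4).resolve_left hz2
    have h5 := hw.eqOn_zero_of_preconnected_of_frequently_eq_zero hconn
      (Metric.mem_ball_self one_pos) h2
    apply hc
    apply hne
    filter_upwards [Metric.ball_mem_nhds (0 : 𝕜) one_pos] with z hz1 using h5 hz1
  obtain ⟨m, g, hg, hg0, hev⟩ := (han z₀ hz').exists_eventuallyEq_pow_smul_nonzero_iff.2 hnz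
  have hm : m ≠ 0 := by
    rintro rfl
    have := hev.self_of_nhds
    rw [h0] at this
    simp at this
    exact hg0 this.symm
  have hgpos : 0 < ‖g z₀‖ := norm_pos_iff.2 hg0
  have hcont : Tendsto (fun z => ‖g z‖) (𝓝 z₀) (𝓝 ‖g z₀‖) := hg.continuousAt.norm
  have e1 : ∀ᶠ z in 𝓝 z₀, ‖g z₀‖ / 2 < ‖g z‖ := hcont.eventually (lt_mem_nhds (by linarith))
  have e2 : ∀ᶠ z in 𝓝 z₀, ‖g z‖ < 2 * ‖g z₀‖ := hcont.eventually (gt_mem_nhds (by linarith))
  refine ⟨m, ‖g z₀‖ / 2, 2 * ‖g z₀‖, by linarith, by linarith, ?_⟩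
  filter_upwards [hev, e1, e2, Metric.ball_mem_nhds z₀ one_pos] with z h1 h2 h3 h4
  rw [h1, norm_smul, norm_pow]
  rw [Metric.mem_ball, dist_eq_norm] at h4
  have h5 : ‖z - z₀‖ ^ m ≤ ‖z - z₀‖ := pow_le_of_le_one (norm_nonneg _) h4.le hm
  have h6 : 0 ≤ ‖z - z₀‖ ^ m := by positivity
  constructor
  · nlinarith
  · nlinarith [norm_nonneg (g z), norm_nonneg (z - z₀)]

theorem exists_acc {X : Type*} [PseudoMetricSpace X] [SecondCountableTopology X] {P : Set X}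
    (hP : ¬ P.Countable) : ∃ p ∈ P, ∀ ε > 0, ∃ p' ∈ P, p' ≠ p ∧ dist p' p < ε := by
  by_contra hcon
  push Not at hcon
  apply hP
  have : DiscreteTopology P := by
    rw [discreteTopology_iff_isOpen_singleton]
    rintro ⟨p, hp⟩
    obtain ⟨ε, hε, h⟩ := hcon p hp
    rw [Metric.isOpen_singleton_iff]
    refine ⟨ε, hε, ?_⟩
    rintro ⟨y, hy⟩ hlt
    by_contra hne
    have := h y hy (fun h' => hne (Subtype.ext h'))
    rw [Subtype.dist_eq] at hlt
    exact absurd hlt (not_lt.2 this)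
  exact Set.countable_coe_iff.1 (TopologicalSpace.separableSpace_iff_countable.1 inferInstance)

theorem key_lemma {Ω J : Type*} (t : Ω → ℝ) (ht : Function.Injective t) (ht1 : ∀ a, |t a| ≤ 1 / 5)
    (hs : ∀ (N : ℕ) (a a' : Ω), a ≠ a' → ∃ ε > 0, ∀ b b', b ≠ a → b' ≠ a' →
      |t b - t a| < ε → |t b' - t a'| < ε →
      |t b - t a| ≤ |t b' - t a'| ^ N ∨ |t b' - t a'| ≤ |t b - t a| ^ N)
    {n : ℕ} {M : ℝ} (hM : 0 < M) (b : J → Fin n → Ω) (hb : ∀ j, Function.Injective (b j))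
    (hunc : ¬ (range b).Countable) (a : J → Fin n → 𝕜) (ha1 : ∀ j l, 1 / M ≤ ‖a j l‖)
    (ha2 : ∀ j l, ‖a j l‖ ≤ M) :
    ∃ j₀, ∀ (c : Fin n → ℕ → 𝕜) (B : ℝ), (∀ l k, ‖c l k‖ ≤ B) → (∀ l, c l ≠ 0) →
      (∀ l, ps (c l) (t (b j₀ l) : 𝕜) = 0) → ∃ j, ∑ l, a j l * ps (c l) (t (b j l) : 𝕜) ≠ 0 := by
  classical
  have hP : ¬ (range fun j l => t (b j l)).Countable := by
    intro h
    apply hunc
    refine Set.MapsTo.countable_of_injOn (f := fun (x : Fin n → Ω) l => t (x l)) ?_ ?_ h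
    · rintro _ ⟨j, rfl⟩
      exact ⟨j, rfl⟩
    · intro x _ y _ hxy
      funext l
      exact ht (congrFun hxy l)
  obtain ⟨_, ⟨j₀, rfl⟩, hacc⟩ := exists_acc hP
  refine ⟨j₀, fun c B hB hc h0 => ?_⟩
  have hord := fun l => ps_order (hB l) (hc l) (z₀ := (t (b j₀ l) : 𝕜))
    (by rw [RCLike.norm_ofReal]; linarith [ht1 (b j₀ l)]) (h0 l)
  choose m κ C hκ hC hev using hord
  have hev' := fun l => Metric.eventually_nhds_iff.1 (hev l)
  choose r hr hball using hev'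
  -- uniform constants
  obtain ⟨N, hN⟩ : ∃ N : ℕ, ∀ l, m l + 2 ≤ N :=
    ⟨∑ l, (m l + 2), fun l => Finset.single_le_sum (f := fun l => m l + 2)
      (fun _ _ => Nat.zero_le _) (Finset.mem_univ l)⟩
  have hC' : ∀ l, C l ≤ ∑ l, C l := fun l => Finset.single_le_sum (f := C)
      (fun l _ => (hC l).le) (Finset.mem_univ l)
  set C' := ∑ l, C l with hC'def
  have hC'0 : 0 ≤ C' := Finset.sum_nonneg fun l _ => (hC l).le
  have hs' : ∀ l l' : Fin n, ∃ ε > 0, l ≠ l' → ∀ β β', β ≠ b j₀ l → β' ≠ b j₀ l' →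
      |t β - t (b j₀ l)| < ε → |t β' - t (b j₀ l')| < ε →
      |t β - t (b j₀ l)| ≤ |t β' - t (b j₀ l')| ^ N ∨
        |t β' - t (b j₀ l')| ≤ |t β - t (b j₀ l)| ^ N := by
    intro l l'
    by_cases h : l = l'
    · exact ⟨1, one_pos, fun h' => (h' h).elim⟩
    · obtain ⟨ε, hε, H⟩ := hs N _ _ ((hb j₀).ne h)
      exact ⟨ε, hε, fun _ => H⟩
  choose e he hsep using hs'
  have hsmall : ∀ᶠ ε in 𝓝[>] (0 : ℝ), (∀ l, ε < r l) ∧ (∀ l l', ε < e l l') ∧ ε < 1 ∧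
      ∀ l, ε < κ l / (M * (n * (M * C') + 1)) := by
    apply Filter.Eventually.filter_mono nhdsWithin_le_nhds
    refine (eventually_all.2 fun l => gt_mem_nhds (hr l)).and
      ((eventually_all.2 fun l => eventually_all.2 fun l' => gt_mem_nhds (he l l')).and
      ((gt_mem_nhds one_pos).and (eventually_all.2 fun l => gt_mem_nhds ?_)))
    have := hκ l
    positivity
  obtain ⟨ε, ⟨h1, h2, h3, h4⟩, hε⟩ := (hsmall.and self_mem_nhdsWithin).exists
  obtain ⟨_, ⟨j, rfl⟩, hne, hdist⟩ := hacc ε hε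
  refine ⟨j, fun hsum => ?_⟩
  set δ : Fin n → ℝ := fun l => |t (b j l) - t (b j₀ l)| with hδ
  have hδε : ∀ l, δ l < ε := fun l =>
    lt_of_le_of_lt (dist_le_pi_dist (fun l => t (b j l)) (fun l => t (b j₀ l)) l) hdist
  obtain ⟨l₁, hl₁⟩ := Function.ne_iff.1 hne
  obtain ⟨l₀, -, hmax⟩ := Finset.exists_max_image Finset.univ δ ⟨l₁, Finset.mem_univ _⟩
  have hpos : 0 < δ l₀ :=
    lt_of_lt_of_le (abs_pos.2 (sub_ne_zero.2 hl₁)) (hmax l₁ (Finset.mem_univ _))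
  have hlt1 : δ l₀ < 1 := (hδε l₀).trans h3
  have hdom : ∀ l, l ≠ l₀ → δ l ≤ δ l₀ ^ N := by
    intro l hl
    by_cases hz : b j l = b j₀ l
    · simp only [hδ, hz, sub_self, abs_zero]
      positivity
    · have hz0 : b j l₀ ≠ b j₀ l₀ := by
        intro h
        simp [hδ, h] at hpos
      rcases hsep l l₀ hl _ _ hz hz0 ((hδε l).trans (h2 _ _)) ((hδε l₀).trans (h2 _ _)) with h | h
      · exact h
      · exfalso
        have h5 : δ l ^ N ≤ δ l₀ ^ N :=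
          pow_le_pow_left₀ (abs_nonneg _) (hmax l (Finset.mem_univ _)) N
        have h6 : δ l₀ ^ N < δ l₀ ^ 1 :=
          pow_lt_pow_right_of_lt_one₀ hpos hlt1 (by have := hN l₀; omega)
        have h7 : δ l₀ ≤ δ l ^ N := h
        rw [pow_one] at h6
        linarith
  have hnorm : ∀ l, ‖(t (b j l) : 𝕜) - (t (b j₀ l) : 𝕜)‖ = δ l := by
    intro l
    rw [← RCLike.ofReal_sub, RCLike.norm_ofReal]
  have hb' : ∀ l, κ l * δ l ^ m l ≤ ‖ps (c l) (t (b j l) : 𝕜)‖ ∧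
      ‖ps (c l) (t (b j l) : 𝕜)‖ ≤ C l * δ l := by
    intro l
    have := hball l (y := (t (b j l) : 𝕜))
      (by rw [dist_eq_norm, hnorm]; exact (hδε l).trans (h1 l))
    rwa [hnorm] at this
  rw [← Finset.add_sum_erase _ _ (Finset.mem_univ l₀), add_eq_zero_iff_eq_neg] at hsum
  have hup : ‖a j l₀ * ps (c l₀) (t (b j l₀) : 𝕜)‖ ≤ n * (M * C' * δ l₀ ^ N) := by
    rw [hsum, norm_neg]
    refine (norm_sum_le _ _).trans ?_
    have : ∀ l ∈ Finset.univ.erase l₀,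
        ‖a j l * ps (c l) (t (b j l) : 𝕜)‖ ≤ M * C' * δ l₀ ^ N := by
      intro l hl
      rw [norm_mul, mul_assoc]
      refine mul_le_mul (ha2 j l) ((hb' l).2.trans ?_) (norm_nonneg _) hM.le
      exact mul_le_mul (hC' l) (hdom l (Finset.ne_of_mem_erase hl)) (abs_nonneg _) hC'0
    refine (Finset.sum_le_card_nsmul _ _ _ this).trans ?_
    rw [nsmul_eq_mul]
    refine mul_le_mul_of_nonneg_right ?_ (by positivity)
    have := Finset.card_le_univ (Finset.univ.erase l₀)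
    rw [Fintype.card_fin] at this
    exact_mod_cast this
  have hlow : 1 / M * (κ l₀ * δ l₀ ^ m l₀) ≤ ‖a j l₀ * ps (c l₀) (t (b j l₀) : 𝕜)‖ := by
    rw [norm_mul]
    have := hκ l₀
    exact mul_le_mul (ha1 j l₀) (hb' l₀).1 (by positivity) (norm_nonneg _)
  have h8 : δ l₀ ^ N ≤ δ l₀ ^ m l₀ * δ l₀ := by
    rw [← pow_succ]
    exact pow_le_pow_of_le_one hpos.le hlt1.le (by have := hN l₀; omega)
  have h9 : δ l₀ * (M * (n * (M * C') + 1)) < κ l₀ := by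
    have := (hδε l₀).trans (h4 l₀)
    rwa [lt_div_iff₀ (by positivity)] at this
  have h10 : 0 < δ l₀ ^ m l₀ := by positivity
  have h11 : κ l₀ * δ l₀ ^ m l₀ ≤ M * (n * (M * C' * (δ l₀ ^ m l₀ * δ l₀))) := by
    have h12 := hlow.trans hup
    rw [one_div, inv_mul_le_iff₀ hM] at h12
    refine h12.trans ?_
    gcongr
  have h13 : δ l₀ * (M * (n * (M * C') + 1)) * δ l₀ ^ m l₀ < κ l₀ * δ l₀ ^ m l₀ :=
    mul_lt_mul_of_pos_right h9 h10
  have h14 : 0 < δ l₀ * M * δ l₀ ^ m l₀ := by positivity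
  nlinarith

end Pool.Agent.P.MP_735d18_an
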