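import Mathlib

/-!
An Aronszajn-type family of enumerations on a well-order with countable initial segments.
-/

namespace Pool.Agent.P.MP_735d18_an

open Set

variable {Ω : Type} [LinearOrder Ω] [WellFoundedLT Ω]

omit [WellFoundedLT Ω] in
theorem exists_step (c : Ω → Ω → ℕ) : ∃ σ : Ω → Ω → Ω, ∀ a ξ η, ξ < η → η < a →
    ξ < σ a ξ ∧ σ a ξ < a ∧ c a (σ a ξ) ≤ c a η := by
  have h : ∀ a ξ : Ω, ∃ s : Ω, ∀ η, ξ < η → η < a → ξ < s ∧ s < a ∧ c a s ≤ c a η := by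
    intro a ξ
    by_cases hne : ({η | ξ < η ∧ η < a} : Set Ω).Nonempty
    · refine ⟨Function.argminOn (c a) _ hne, fun η h1 h2 => ?_⟩
      have hm := Function.argminOn_mem (c a) _ hne
      exact ⟨hm.1, hm.2, Function.argminOn_le (c a) _ (show η ∈ {η | ξ < η ∧ η < a} from ⟨h1, h2⟩)⟩
    · exact ⟨a, fun η h1 h2 => (hne ⟨η, h1, h2⟩).elim⟩
  choose σ hσ using h
  exact ⟨σ, hσ⟩

theorem exists_rho (c : Ω → Ω → ℕ) (σ : Ω → Ω → Ω) : ∃ ρ : Ω → Ω → ℕ, ∀ a ξ, σ a ξ < a →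
    ρ a ξ = max (ρ (σ a ξ) ξ) (c a (σ a ξ)) := by
  classical
  let F : ∀ a : Ω, (∀ b, b < a → Ω → ℕ) → Ω → ℕ := fun a ih ξ =>
    if h : σ a ξ < a then max (ih (σ a ξ) h ξ) (c a (σ a ξ)) else 0
  refine ⟨(wellFounded_lt (α := Ω)).fix F, fun a ξ h => ?_⟩
  rw [WellFounded.fix_eq]
  simp only [F, dif_pos h]

theorem exists_coherent (hc : ∀ a : Ω, (Iio a).Countable) : ∃ ρ : Ω → Ω → ℕ,
    (∀ a m, {ξ | ξ < a ∧ ρ a ξ ≤ m}.Finite) ∧
    (∀ a b, b ≤ a → {ξ | ξ < b ∧ ρ a ξ ≠ ρ b ξ}.Finite) := by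
  have h1 : ∀ a : Ω, ∃ f : Ω → ℕ, InjOn f (Iio a) := fun a =>
    Set.countable_iff_exists_injOn.1 (hc a)
  choose c hcinj using h1
  have hfin : ∀ a m, {η | η < a ∧ c a η ≤ m}.Finite := by
    intro a m
    refine Set.Finite.of_finite_image (f := c a) ((Set.finite_Iic m).subset ?_)
      ((hcinj a).mono fun x hx => hx.1)
    rintro _ ⟨x, hx, rfl⟩
    exact hx.2
  obtain ⟨σ, hσ⟩ := exists_step c
  obtain ⟨ρ, hρ⟩ := exists_rho c σ
  have key : ∀ a, (∀ m, {ξ | ξ < a ∧ ρ a ξ ≤ m}.Finite) ∧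
      (∀ b, b < a → {ξ | ξ < b ∧ ρ a ξ ≠ ρ b ξ}.Finite) := by
    intro a
    induction a using WellFoundedLT.induction with
    | ind a ih =>
    have coh : ∀ η b, η < a → b < a → {ξ | ξ < b ∧ ξ < η ∧ ρ η ξ ≠ ρ b ξ}.Finite := by
      intro η b hη hb
      rcases lt_trichotomy η b with h | h | h
      · refine ((ih b hb).2 η h).subset ?_
        rintro ξ ⟨-, h2, h3⟩
        exact ⟨h2, h3.symm⟩
      · subst h
        simp
      · refine ((ih η hη).2 b h).subset ?_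
        rintro ξ ⟨h1, -, h3⟩
        exact ⟨h1, h3⟩
    constructor
    · intro m
      have hA : {ξ | ξ < a ∧ ∀ η, ξ < η → ¬ η < a}.Finite := by
        apply Set.Subsingleton.finite
        rintro x ⟨hx, hx'⟩ y ⟨hy, hy'⟩
        rcases lt_trichotomy x y with h | h | h
        · exact (hx' y h hy).elim
        · exact h
        · exact (hy' x h hx).elim
      have hB : (⋃ η ∈ {η | η < a ∧ c a η ≤ m}, {ξ | ξ < η ∧ ρ η ξ ≤ m}).Finite :=
        (hfin a m).biUnion fun η hη => (ih η hη.1).1 m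
      refine (hA.union hB).subset ?_
      rintro ξ ⟨hξ, hm⟩
      by_cases hex : ∃ η, ξ < η ∧ η < a
      · obtain ⟨η, h1, h2⟩ := hex
        obtain ⟨h3, h4, -⟩ := hσ a ξ η h1 h2
        rw [hρ a ξ h4] at hm
        right
        simp only [mem_iUnion]
        exact ⟨σ a ξ, ⟨h4, le_trans (le_max_right _ _) hm⟩, h3, le_trans (le_max_left _ _) hm⟩
      · left
        exact ⟨hξ, fun η h1 h2 => hex ⟨η, h1, h2⟩⟩
    · intro b hb
      have hB : (⋃ η ∈ {η | η < a ∧ c a η ≤ c a b},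
          ({ξ | ξ < b ∧ ξ < η ∧ ρ η ξ ≠ ρ b ξ} ∪ {ξ | ξ < η ∧ ρ η ξ ≤ c a η})).Finite :=
        (hfin a _).biUnion fun η hη => (coh η b hη.1 hb).union ((ih η hη.1).1 _)
      refine hB.subset ?_
      rintro ξ ⟨hξ, hne⟩
      obtain ⟨h3, h4, h5⟩ := hσ a ξ b hξ hb
      rw [hρ a ξ h4] at hne
      simp only [mem_iUnion]
      refine ⟨σ a ξ, ⟨h4, h5⟩, ?_⟩
      by_cases hle : ρ (σ a ξ) ξ ≤ c a (σ a ξ)
      · right
        exact ⟨h3, hle⟩
      · left
        rw [max_eq_left (le_of_lt (not_le.1 hle))] at hne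
        exact ⟨hξ, h3, hne⟩
  refine ⟨ρ, fun a => (key a).1, fun a b hab => ?_⟩
  rcases hab.eq_or_lt with h | h
  · subst h
    simp
  · exact (key a).2 b h

omit [LinearOrder Ω] [WellFoundedLT Ω] in
theorem countable_finite_modif (s : Set Ω) (hs : s.Countable) (r : Ω → ℕ) :
    {u : Ω → ℕ | {ξ | u ξ ≠ r ξ}.Finite ∧ {ξ | u ξ ≠ r ξ} ⊆ s}.Countable := by
  classical
  have h1 : {T : Set (Ω × ℕ) | T.Finite ∧ T ⊆ s ×ˢ univ}.Countable :=
    Set.countable_ofPred_finite_subset (hs.prod countable_univ)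
  refine Set.MapsTo.countable_of_injOn
    (f := fun u : Ω → ℕ => {p : Ω × ℕ | u p.1 ≠ r p.1 ∧ u p.1 = p.2}) ?_ ?_ h1
  · rintro u ⟨hu1, hu2⟩
    constructor
    · refine (hu1.image fun ξ => (ξ, u ξ)).subset ?_
      rintro ⟨ξ, n⟩ ⟨h1, h2⟩
      exact ⟨ξ, h1, by simp only at h2; simp [h2]⟩
    · rintro ⟨ξ, n⟩ ⟨h1, -⟩
      exact ⟨hu2 h1, trivial⟩
  · intro u _ v _ huv
    funext ξ
    by_cases h : u ξ = r ξ
    · by_contra hne
      have : (ξ, v ξ) ∈ {p : Ω × ℕ | v p.1 ≠ r p.1 ∧ v p.1 = p.2} :=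
        ⟨fun h' => hne (h.trans h'.symm), rfl⟩
      simp only at huv
      rw [← huv] at this
      exact this.1 h
    · have : (ξ, u ξ) ∈ {p : Ω × ℕ | u p.1 ≠ r p.1 ∧ u p.1 = p.2} := ⟨h, rfl⟩
      simp only at huv
      rw [huv] at this
      exact this.2.symm

/-- Enumerations `q a` of the initial segments with countably many traces on each level. -/
theorem exists_enum (hc : ∀ a : Ω, (Iio a).Countable) : ∃ q : Ω → ℕ → Ω,
    (∀ a n, q a n ≤ a) ∧ (∀ a ξ, ξ < a → ∃ n, q a n = ξ) ∧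
    ∀ b, ((fun a n => min (q a n) b) '' Ici b).Countable := by
  classical
  obtain ⟨ρ, hfin, hcoh⟩ := exists_coherent hc
  let E : (Ω → ℕ) → Ω → ℕ := fun r ξ => Nat.pair (r ξ) {η | η < ξ ∧ r η = r ξ}.ncard
  have hinj : ∀ a, InjOn (E (ρ a)) (Iio a) := by
    intro a
    have aux : ∀ x y, x < y → y < a → E (ρ a) x ≠ E (ρ a) y := by
      intro x y hxy hy h
      simp only [E, Nat.pair_eq_pair] at h
      obtain ⟨h1, h2⟩ := h
      have hf : {η | η < y ∧ ρ a η = ρ a y}.Finite :=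
        (hfin a (ρ a y)).subset fun η hη => ⟨hη.1.trans hy, hη.2.le⟩
      have hss : {η | η < x ∧ ρ a η = ρ a x} ⊂ {η | η < y ∧ ρ a η = ρ a y} := by
        constructor
        · rintro η ⟨h3, h4⟩
          exact ⟨h3.trans hxy, h4.trans h1⟩
        · intro hsub
          exact lt_irrefl x (hsub ⟨hxy, h1⟩).1
      exact (Set.ncard_lt_ncard hss hf).ne h2
    intro x hx y hy h
    rcases lt_trichotomy x y with h' | h' | h'
    · exact (aux x y h' hy h).elim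
    · exact h'
    · exact (aux y x h' hx h.symm).elim
  let Q : (Ω → ℕ) → Ω → ℕ → Ω := fun r a n =>
    if h : ∃ ξ, ξ < a ∧ E r ξ = n then h.choose else a
  have hQ1 : ∀ r a n, Q r a n ≤ a := by
    intro r a n
    simp only [Q]
    split_ifs with h
    · exact h.choose_spec.1.le
    · exact le_rfl
  have hQ2 : ∀ r a, InjOn (E r) (Iio a) → ∀ ξ, ξ < a → Q r a (E r ξ) = ξ := by
    intro r a hr ξ hξ
    have h : ∃ η, η < a ∧ E r η = E r ξ := ⟨ξ, hξ, rfl⟩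
    simp only [Q, dif_pos h]
    exact hr h.choose_spec.1 hξ h.choose_spec.2
  have hQ3 : ∀ r a n, Q r a n < a → E r (Q r a n) = n := by
    intro r a n hlt
    simp only [Q] at hlt ⊢
    split_ifs at hlt ⊢ with h
    · exact h.choose_spec.2
    · exact (lt_irrefl _ hlt).elim
  refine ⟨fun a => Q (ρ a) a, fun a n => hQ1 _ _ _, fun a ξ h => ⟨_, hQ2 _ _ (hinj a) ξ h⟩, ?_⟩
  intro b
  have hcnt := (countable_finite_modif (Iio b) (hc b) (ρ b)).image (fun r => Q r b)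
  refine hcnt.mono ?_
  rintro _ ⟨a, ha, rfl⟩
  have hba : b ≤ a := ha
  let r : Ω → ℕ := fun ξ => if ξ < b then ρ a ξ else ρ b ξ
  have hr : ∀ ξ, ξ < b → r ξ = ρ a ξ := fun ξ h => by simp [r, h]
  have hE : ∀ ξ, ξ < b → E r ξ = E (ρ a) ξ := by
    intro ξ h
    simp only [E, hr ξ h]
    congr 2
    ext η
    simp only [mem_ofPred_eq]
    constructor
    · rintro ⟨h1, h2⟩
      exact ⟨h1, by rw [← hr η (h1.trans h)]; exact h2⟩
    · rintro ⟨h1, h2⟩
      exact ⟨h1, by rw [hr η (h1.trans h)]; exact h2⟩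
  have hrinj : InjOn (E r) (Iio b) := by
    intro x hx y hy h
    rw [hE x hx, hE y hy] at h
    exact hinj a (lt_of_lt_of_le hx hba) (lt_of_lt_of_le hy hba) h
  refine ⟨r, ⟨?_, ?_⟩, ?_⟩
  · refine (hcoh a b hba).subset ?_
    intro ξ hξ
    by_cases h : ξ < b
    · exact ⟨h, by rw [← hr ξ h]; exact hξ⟩
    · exact (hξ (by simp [r, h])).elim
  · intro ξ hξ
    by_contra h
    have h' : ¬ ξ < b := h
    exact hξ (by simp [r, h'])
  · funext n
    simp only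
    rcases (hQ1 r b n).eq_or_lt with h | h
    · rw [h]
      symm
      apply min_eq_right
      by_contra hlt
      have hlt' : Q (ρ a) a n < b := not_le.1 hlt
      have h1 := hQ3 (ρ a) a n (lt_of_lt_of_le hlt' hba)
      rw [← hE _ hlt'] at h1
      have h2 := hQ2 r b hrinj _ hlt'
      rw [h1, h] at h2
      exact hlt'.ne h2.symm
    · have h1 := hQ3 r b n h
      rw [hE _ h] at h1
      have h2 := hQ2 (ρ a) a (hinj a) _ (lt_of_lt_of_le h hba)
      rw [h1] at h2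
      rw [h2, min_eq_left h.le]

end Pool.Agent.P.MP_735d18_an
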