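import Mathlib

/-!
A Cantor set of reals in which differences near distinct points live on incomparable scales.
-/

namespace Pool.Agent.P.MP_735d18_an

open Set

/-- A very rapidly decreasing sequence. -/
noncomputable def eta : ℕ → ℝ
  | 0 => 1 / 10
  | k + 1 => (eta k / 2) ^ (k + 1) / 4

theorem eta_pos : ∀ k, 0 < eta k
  | 0 => by norm_num [eta]
  | k + 1 => by
    have := eta_pos k
    simp only [eta]
    positivity

theorem eta_le_and (k : ℕ) : eta k ≤ 1 / 10 ∧ eta (k + 1) ≤ eta k / 8 := by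
  have step : ∀ k, eta k ≤ 1 / 10 → eta (k + 1) ≤ eta k / 8 := by
    intro k hk
    have h0 := eta_pos k
    have h1 : (eta k / 2) ^ (k + 1) ≤ eta k / 2 :=
      pow_le_of_le_one (by positivity) (by linarith) (by omega)
    simp only [eta]
    linarith
  induction k with
  | zero => exact ⟨by norm_num [eta], step 0 (by norm_num [eta])⟩
  | succ k ih =>
    have h : eta (k + 1) ≤ 1 / 10 := by linarith [ih.1, ih.2]
    exact ⟨h, step _ h⟩

theorem eta_add_le (k j : ℕ) : eta (j + k) ≤ eta k * (1 / 8) ^ j := by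
  induction j with
  | zero => simp
  | succ j ih =>
    have := (eta_le_and (j + k)).2
    rw [show j + 1 + k = j + k + 1 by ring, pow_succ]
    nlinarith

theorem eta_anti : Antitone eta := by
  apply antitone_nat_of_succ_le
  intro k
  have := (eta_le_and k).2
  have := eta_pos k
  linarith

theorem summable_eta : Summable eta := by
  refine Summable.of_nonneg_of_le (fun k => (eta_pos k).le) (fun j => ?_)
    ((summable_geometric_of_lt_one (r := 1 / 8) (by norm_num) (by norm_num)).mul_left (eta 0))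
  simpa using eta_add_le 0 j

theorem tail_le (k : ℕ) : ∑' j, eta (j + k) ≤ eta k * (8 / 7) := by
  have h1 : Summable fun j => eta (j + k) := (summable_nat_add_iff k).2 summable_eta
  have h2 := (summable_geometric_of_lt_one (r := 1 / 8) (by norm_num) (by norm_num)).mul_left
    (eta k)
  refine (h1.tsum_le_tsum (eta_add_le k) h2).trans (le_of_eq ?_)
  rw [tsum_mul_left, tsum_geometric_of_lt_one (by norm_num) (by norm_num)]
  norm_num

theorem summable_digit {d : ℕ → ℝ} (hd : ∀ k, |d k| ≤ 1) : Summable fun k => d k * eta k := by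
  refine Summable.of_norm_bounded summable_eta fun k => ?_
  rw [Real.norm_eq_abs, abs_mul, abs_of_pos (eta_pos k)]
  exact mul_le_of_le_one_left (eta_pos k).le (hd k)

theorem digit_bounds {d : ℕ → ℝ} (hd : ∀ k, |d k| ≤ 1) (k : ℕ) (h0 : ∀ i, i < k → d i = 0)
    (h1 : |d k| = 1) :
    eta k / 2 ≤ |∑' i, d i * eta i| ∧ |∑' i, d i * eta i| ≤ 2 * eta k := by
  have hs := summable_digit hd
  have e1 := hs.sum_add_tsum_nat_add (k + 1)
  have e2 : ∑ i ∈ Finset.range (k + 1), d i * eta i = d k * eta k := by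
    rw [Finset.sum_range_succ, Finset.sum_eq_zero, zero_add]
    intro i hi
    rw [h0 i (Finset.mem_range.1 hi), zero_mul]
  have e3 : |∑' i, d (i + (k + 1)) * eta (i + (k + 1))| ≤ eta k / 7 := by
    have h2 : Summable fun j => eta (j + (k + 1)) := (summable_nat_add_iff _).2 summable_eta
    have h3 := tsum_of_norm_bounded (f := fun i => d (i + (k + 1)) * eta (i + (k + 1)))
      h2.hasSum (fun i => by
        rw [Real.norm_eq_abs, abs_mul, abs_of_pos (eta_pos _)]
        exact mul_le_of_le_one_left (eta_pos _).le (hd _))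
    rw [Real.norm_eq_abs] at h3
    have h4 := tail_le (k + 1)
    have h5 := (eta_le_and k).2
    linarith
  have e4 : |d k * eta k| = eta k := by
    rw [abs_mul, h1, one_mul, abs_of_pos (eta_pos k)]
  rw [← e1, e2]
  have hp := eta_pos k
  constructor
  · have := abs_add_le (d k * eta k + ∑' i, d (i + (k + 1)) * eta (i + (k + 1)))
      (-∑' i, d (i + (k + 1)) * eta (i + (k + 1)))
    rw [add_neg_cancel_right, abs_neg, e4] at this
    linarith
  · have := abs_add_le (d k * eta k) (∑' i, d (i + (k + 1)) * eta (i + (k + 1)))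
    linarith

open Classical in
/-- The code of the node of height `n` on the branch `s`. -/
noncomputable def code (s : Set ℕ) (n : ℕ) : ℕ :=
  Encodable.encode (n, (Finset.range n).filter (· ∈ s))

theorem code_eq {s u : Set ℕ} {n m : ℕ} (h : code s n = code u m) :
    n = m ∧ ∀ i, i < n → (i ∈ s ↔ i ∈ u) := by
  classical
  unfold code at h
  have h' := Encodable.encode_injective h
  simp only [Prod.mk.injEq] at h'
  obtain ⟨rfl, h2⟩ := h'
  refine ⟨rfl, fun i hi => ?_⟩
  have := congrArg (i ∈ ·) h2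
  simpa [hi] using this

theorem code_congr {s u : Set ℕ} {n : ℕ} (h : ∀ i, i < n → (i ∈ s ↔ i ∈ u)) :
    code s n = code u n := by
  classical
  unfold code
  congr 2
  ext i
  simp only [Finset.mem_filter, Finset.mem_range]
  exact and_congr_right (h i)

open Classical in
/-- The digits of the real number attached to a branch. -/
noncomputable def dig (s : Set ℕ) (k : ℕ) : ℝ := if k ∈ range (code s) then 1 else 0

/-- The real number attached to a branch. -/
noncomputable def tt (s : Set ℕ) : ℝ := ∑' k, dig s k * eta k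

theorem abs_dig_le (s : Set ℕ) (k : ℕ) : |dig s k| ≤ 1 := by
  unfold dig
  split_ifs <;> simp

theorem abs_tt_le (s : Set ℕ) : |tt s| ≤ 1 / 5 := by
  have h3 := tsum_of_norm_bounded (f := fun i => dig s i * eta i)
    summable_eta.hasSum (fun i => by
      rw [Real.norm_eq_abs, abs_mul, abs_of_pos (eta_pos _)]
      exact mul_le_of_le_one_left (eta_pos _).le (abs_dig_le _ _))
  have h4 := tail_le 0
  simp only [add_zero] at h4
  have h5 := (eta_le_and 0).1
  rw [Real.norm_eq_abs] at h3
  unfold tt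
  linarith

theorem tt_diff {s u : Set ℕ} (h : u ≠ s) : ∃ k,
    (∀ i, i < k → (i ∈ range (code u) ↔ i ∈ range (code s))) ∧
    (k ∈ range (code u) ∨ k ∈ range (code s)) ∧
    eta k / 2 ≤ |tt u - tt s| ∧ |tt u - tt s| ≤ 2 * eta k := by
  classical
  have hex : ∃ k, ¬ (k ∈ range (code u) ↔ k ∈ range (code s)) := by
    by_contra hcon
    push Not at hcon
    apply h
    ext i
    obtain ⟨m, hm⟩ := (hcon (code u (i + 1))).1 ⟨_, rfl⟩
    obtain ⟨rfl, h2⟩ := code_eq hm
    exact (h2 i (by omega)).symm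
  have hk := Nat.find_spec hex
  have hlt : ∀ i, i < Nat.find hex → (i ∈ range (code u) ↔ i ∈ range (code s)) :=
    fun i hi => not_not.1 (Nat.find_min hex hi)
  refine ⟨Nat.find hex, hlt, by tauto, ?_⟩
  have e : tt u - tt s = ∑' k, (dig u k - dig s k) * eta k := by
    unfold tt
    rw [← (summable_digit (abs_dig_le u)).tsum_sub (summable_digit (abs_dig_le s))]
    congr 1
    funext k
    ring
  rw [e]
  apply digit_bounds (d := fun k => dig u k - dig s k)
  · intro k
    unfold dig
    split_ifs <;> simp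
  · intro i hi
    unfold dig
    rw [if_congr (hlt i hi) rfl rfl, sub_self]
  · unfold dig
    by_cases h1 : Nat.find hex ∈ range (code u) <;>
      by_cases h2 : Nat.find hex ∈ range (code s)
    · exact (hk (iff_of_true h1 h2)).elim
    · rw [if_pos h1, if_neg h2]
      simp
    · rw [if_neg h1, if_pos h2]
      simp
    · exact (hk (iff_of_false h1 h2)).elim

theorem tt_injective : Function.Injective tt := by
  intro u s h
  by_contra hne
  obtain ⟨k, -, -, h1, -⟩ := tt_diff hne
  rw [h, sub_self, abs_zero] at h1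
  linarith [eta_pos k]

theorem scale_aux {N k k' : ℕ} (hN : N ≤ k) (hk : k < k') {x y : ℝ} (hx : eta k / 2 ≤ x)
    (hy : y ≤ 2 * eta k') : y ≤ x ^ N := by
  have hp := eta_pos k
  have h1 : eta k' ≤ eta (k + 1) := eta_anti hk
  have h2 : (eta k / 2) ^ (k + 1) ≤ (eta k / 2) ^ N :=
    pow_le_pow_of_le_one (by positivity) (by linarith [(eta_le_and k).1]) (by omega)
  have h3 : (eta k / 2) ^ N ≤ x ^ N := pow_le_pow_left₀ (by positivity) hx N
  have h4 : 0 ≤ (eta k / 2) ^ (k + 1) := by positivity
  simp only [eta] at h1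
  linarith

theorem tt_scale (N : ℕ) {s s' : Set ℕ} (h : s ≠ s') : ∃ ε > 0, ∀ u u', u ≠ s → u' ≠ s' →
    |tt u - tt s| < ε → |tt u' - tt s'| < ε →
    |tt u - tt s| ≤ |tt u' - tt s'| ^ N ∨ |tt u' - tt s'| ≤ |tt u - tt s| ^ N := by
  have hex : ∃ m, ¬ (m ∈ s ↔ m ∈ s') := by
    by_contra hcon
    push Not at hcon
    exact h (Set.ext hcon)
  obtain ⟨m, hm⟩ := hex
  obtain ⟨K, hK⟩ : ∃ K, N ≤ K ∧ ∀ n, n ≤ m + 1 → code s n ≤ K ∧ code s' n ≤ K := by
    refine ⟨N + ∑ n ∈ Finset.range (m + 2), (code s n + code s' n), by omega, fun n hn => ?_⟩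
    have := Finset.single_le_sum (f := fun n => code s n + code s' n)
      (fun _ _ => Nat.zero_le _) (Finset.mem_range.2 (show n < m + 2 by omega))
    omega
  have key : ∀ (s u : Set ℕ) (k : ℕ), (∀ n, n ≤ m + 1 → code s n ≤ K) → K < k →
      (∀ i, i < k → (i ∈ range (code u) ↔ i ∈ range (code s))) →
      (k ∈ range (code u) ∨ k ∈ range (code s)) →
      ∃ v n, k = code v n ∧ m < n ∧ (m ∈ v ↔ m ∈ s) := by
    intro s u k hs hk h1 h2
    obtain ⟨n, hn⟩ := (h1 (code s (m + 1)) (lt_of_le_of_lt (hs _ le_rfl) hk)).2 ⟨_, rfl⟩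
    obtain ⟨rfl, h3⟩ := code_eq hn
    rcases h2 with ⟨n, rfl⟩ | ⟨n, rfl⟩
    · refine ⟨u, n, rfl, ?_, h3 m (by omega)⟩
      by_contra hle
      have : code u n = code s n := code_congr fun i hi => h3 i (by omega)
      have := hs n (by omega)
      omega
    · refine ⟨s, n, rfl, ?_, Iff.rfl⟩
      by_contra hle
      have := hs n (by omega)
      omega
  refine ⟨eta K / 2, by linarith [eta_pos K], fun u u' hu hu' h1 h2 => ?_⟩
  obtain ⟨k, a1, a2, a3, a4⟩ := tt_diff hu
  obtain ⟨k', b1, b2, b3, b4⟩ := tt_diff hu'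
  have hk : K < k := by
    by_contra hle
    have := eta_anti (not_lt.1 hle)
    linarith
  have hk' : K < k' := by
    by_contra hle
    have := eta_anti (not_lt.1 hle)
    linarith
  obtain ⟨v, n, c1, c2, c3⟩ := key s u k (fun n hn => (hK.2 n hn).1) hk a1 a2
  obtain ⟨v', n', d1, d2, d3⟩ := key s' u' k' (fun n hn => (hK.2 n hn).2) hk' b1 b2
  rcases lt_trichotomy k k' with hlt | heq | hlt
  · right
    exact scale_aux (by omega) hlt a3 b4
  · exfalso
    have := (code_eq (c1.symm.trans (heq.trans d1))).2 m c2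
    tauto
  · left
    exact scale_aux (by omega) hlt b3 a4

/-- A scale-separated injection of any set of size at most continuum into `[-1/5, 1/5]`. -/
theorem exists_scale {Ω : Type} (ι : Ω → Set ℕ) (hι : Function.Injective ι) : ∃ t : Ω → ℝ,
    Function.Injective t ∧ (∀ a, |t a| ≤ 1 / 5) ∧
    ∀ (N : ℕ) (a a' : Ω), a ≠ a' → ∃ ε > 0, ∀ b b', b ≠ a → b' ≠ a' →
      |t b - t a| < ε → |t b' - t a'| < ε →
      |t b - t a| ≤ |t b' - t a'| ^ N ∨ |t b' - t a'| ≤ |t b - t a| ^ N := by
  refine ⟨fun a => tt (ι a), tt_injective.comp hι, fun a => abs_tt_le _, fun N a a' h => ?_⟩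
  obtain ⟨ε, hε, H⟩ := tt_scale N (hι.ne h)
  exact ⟨ε, hε, fun b b' hb hb' => H _ _ (hι.ne hb) (hι.ne hb')⟩

end Pool.Agent.P.MP_735d18_an
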