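import Mathlib
import Pool.Agent.P.MP_735d18_an.Aron
import Pool.Agent.P.MP_735d18_an.Scale
import Pool.Agent.P.MP_735d18_an.Analytic

/-!
A renorming of `c₀(ω₁)` without total Auerbach systems.
-/

namespace Pool.Agent.P.MP_735d18_an

open Set Filter Topology
open scoped ENNReal

variable {𝕜 : Type*} [RCLike 𝕜]

theorem ps_term_le {c : ℕ → 𝕜} {B : ℝ} (hB : ∀ n, ‖c n‖ ≤ B) {z : 𝕜} (hz : ‖z‖ ≤ 1 / 5) (n : ℕ) :
    ‖z ^ (n + 1) * c n‖ ≤ B / 5 * (1 / 5) ^ n := by
  rw [norm_mul, norm_pow]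
  have h1 : ‖z‖ ^ (n + 1) ≤ (1 / 5) ^ (n + 1) := pow_le_pow_left₀ (norm_nonneg _) hz _
  calc ‖z‖ ^ (n + 1) * ‖c n‖ ≤ (1 / 5) ^ (n + 1) * B :=
        mul_le_mul h1 (hB n) (norm_nonneg _) (by positivity)
    _ = B / 5 * (1 / 5) ^ n := by ring

theorem ps_hasSum_bound (B : ℝ) : HasSum (fun n : ℕ => B / 5 * (1 / 5 : ℝ) ^ n) (B / 4) := by
  have := (hasSum_geometric_of_lt_one (r := 1 / 5) (by norm_num) (by norm_num)).mul_left (B / 5)
  have e : B / 5 * (1 - 1 / 5)⁻¹ = B / 4 := by ring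
  rwa [e] at this

theorem ps_summable {c : ℕ → 𝕜} {B : ℝ} (hB : ∀ n, ‖c n‖ ≤ B) {z : 𝕜} (hz : ‖z‖ ≤ 1 / 5) :
    Summable fun n => z ^ (n + 1) * c n :=
  Summable.of_norm_bounded (ps_hasSum_bound B).summable (ps_term_le hB hz)

theorem norm_ps_le {c : ℕ → 𝕜} {B : ℝ} (hB : ∀ n, ‖c n‖ ≤ B) {z : 𝕜} (hz : ‖z‖ ≤ 1 / 5) :
    ‖ps c z‖ ≤ B / 4 :=
  tsum_of_norm_bounded (ps_hasSum_bound B) (ps_term_le hB hz)

theorem ps_zero (z : 𝕜) : ps (fun _ => (0 : 𝕜)) z = 0 := by simp [ps]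

section abstract

variable {Ω : Type} [LinearOrder Ω] {E : Type*} [NormedAddCommGroup E] [NormedSpace 𝕜 E]

theorem exists_strict_bound [Uncountable Ω] (hc : ∀ a : Ω, (Iio a).Countable) {C : Set Ω}
    (hC : C.Countable) : ∃ b, ∀ a ∈ C, a < b := by
  by_contra hcon
  push Not at hcon
  have h1 : (⋃ a ∈ C, Iic a).Countable := hC.biUnion fun a _ => by
    rw [← Iio_insert]
    exact (hc a).insert a
  apply Set.not_countable_univ (α := Ω)
  refine h1.mono fun b _ => ?_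
  obtain ⟨a, ha, hb⟩ := hcon b
  exact mem_biUnion ha hb

theorem pigeon {I D : Type*} {J : Set I} (hJ : ¬ J.Countable) (g : I → D)
    (hg : (g '' J).Countable) : ∃ d, ¬ {j | j ∈ J ∧ g j = d}.Countable := by
  by_contra hcon
  push Not at hcon
  apply hJ
  refine (hg.biUnion fun d _ => hcon d).mono fun j hj => ?_
  exact mem_biUnion (mem_image_of_mem g hj) ⟨hj, rfl⟩

omit [LinearOrder Ω] in
/-- Norm-attaining functionals are finite combinations of coordinates. -/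
theorem norm_attaining (ev : Ω → E →ₗ[𝕜] 𝕜) (h1 : ∀ z a, ‖ev a z‖ ≤ ‖z‖)
    (h2 : ∀ z (C : ℝ), 0 ≤ C → (∀ a, ‖ev a z‖ ≤ C) → ‖z‖ ≤ C)
    (z : E) (hz : ‖z‖ = 1) (hfin : {a | 2 / 3 < ‖ev a z‖}.Finite)
    (f : E →L[𝕜] 𝕜) (hf : ‖f‖ = 1) (hfz : f z = 1) :
    ∃ a : Ω →₀ 𝕜, ∀ w, f w = a.sum fun α c => c * ev α w := by
  have : Finite {a | 2 / 3 < ‖ev a z‖} := hfin
  have hker : ⨅ i : {a | 2 / 3 < ‖ev a z‖}, LinearMap.ker (ev i) ≤
      LinearMap.ker (f : E →ₗ[𝕜] 𝕜) := by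
    intro w hw
    simp only [Submodule.mem_iInf, LinearMap.mem_ker] at hw
    rw [LinearMap.mem_ker]
    change f w = 0
    set ε : ℝ := 1 / (3 * (‖f w‖ * ‖w‖ + 1)) with hε
    have hεpos : 0 < ε := by positivity
    set s : 𝕜 := (ε : 𝕜) * (starRingEnd 𝕜) (f w) with hs
    have hsn : ‖s‖ * ‖w‖ ≤ 1 / 3 := by
      rw [hs, norm_mul, RCLike.norm_conj, RCLike.norm_ofReal, abs_of_pos hεpos, hε, mul_assoc,
        div_mul_eq_mul_div, one_mul, div_le_div_iff₀ (by positivity) (by norm_num)]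
      nlinarith [norm_nonneg (f w), norm_nonneg w]
    have hle : ‖z + s • w‖ ≤ 1 := by
      apply h2 _ _ zero_le_one
      intro a
      rw [map_add, map_smul]
      by_cases ha : 2 / 3 < ‖ev a z‖
      · rw [hw ⟨a, ha⟩, smul_zero, add_zero, ← hz]
        exact h1 z a
      · refine (norm_add_le _ _).trans ?_
        rw [norm_smul]
        have := mul_le_mul_of_nonneg_left (h1 w a) (norm_nonneg s)
        linarith [not_lt.1 ha]
    have h3 : ‖f (z + s • w)‖ ≤ 1 := by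
      refine (f.le_opNorm _).trans ?_
      rw [hf, one_mul]
      exact hle
    have h4 : f (z + s • w) = ((1 + ε * ‖f w‖ ^ 2 : ℝ) : 𝕜) := by
      rw [map_add, map_smul, hfz, smul_eq_mul, hs, mul_assoc, RCLike.conj_mul]
      push_cast
      ring
    rw [h4, RCLike.norm_ofReal] at h3
    have h5 : ε * ‖f w‖ ^ 2 ≤ 0 := by linarith [le_abs_self (1 + ε * ‖f w‖ ^ 2)]
    have h6 : ‖f w‖ ^ 2 ≤ 0 := by
      by_contra h
      exact absurd (mul_pos hεpos (not_le.1 h)) (not_lt.2 h5)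
    exact norm_eq_zero.1 (pow_eq_zero_iff two_ne_zero |>.1 (le_antisymm h6 (by positivity)))
  have hmem := mem_span_of_iInf_ker_le_ker hker
  have hmem' : (f : E →ₗ[𝕜] 𝕜) ∈ Submodule.span 𝕜 (range ev) := by
    refine Submodule.span_mono ?_ hmem
    rintro _ ⟨i, rfl⟩
    exact ⟨i, rfl⟩
  obtain ⟨a, ha⟩ := Finsupp.mem_span_range_iff_exists_finsupp.1 hmem'
  refine ⟨a, fun w => ?_⟩
  have := LinearMap.congr_fun ha w
  change _ = f w at this
  rw [← this, Finsupp.sum, Finsupp.sum, LinearMap.sum_apply]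
  simp

omit [LinearOrder Ω] in
theorem finite_support_fibre {I : Type*} (ev : Ω → E →ₗ[𝕜] 𝕜) (x : I → E) (a : I → Ω →₀ 𝕜)
    (h1 : ∀ i, ((a i).sum fun α c => c * ev α (x i)) = 1)
    (h2 : ∀ i j, i ≠ j → ((a i).sum fun α c => c * ev α (x j)) = 0) (A : Finset Ω) :
    {i | (a i).support ⊆ A}.Finite := by
  classical
  have hli : LinearIndependent 𝕜 fun (i : {i | (a i).support ⊆ A}) (α : A) => ev α (x i) := by
    rw [linearIndependent_iff']
    intro s g hg i hi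
    have hsum : ∀ j, ((a i).sum fun α c => c * ev α (x j)) = ∑ α : A, a i α * ev α (x j) := by
      intro j
      rw [Finsupp.sum_of_support_subset _ i.2 _ (by simp), Finset.sum_coe_sort A
        (fun α => a i α * ev α (x j))]
    have h3 : ∑ j ∈ s, g j * ((a i).sum fun α c => c * ev α (x j)) = 0 := by
      simp only [hsum, Finset.mul_sum]
      rw [Finset.sum_comm]
      apply Finset.sum_eq_zero
      intro α _
      have := congrFun hg α
      simp only [Finset.sum_apply, Pi.smul_apply, smul_eq_mul, Pi.zero_apply] at this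
      calc ∑ j ∈ s, g j * (a i α * ev α (x j)) = a i α * ∑ j ∈ s, g j * ev α (x j) := by
            rw [Finset.mul_sum]
            exact Finset.sum_congr rfl fun j _ => by ring
        _ = 0 := by rw [this, mul_zero]
    rw [Finset.sum_eq_single i] at h3
    · rwa [h1, mul_one] at h3
    · intro j _ hj
      rw [h2 i j (fun h => hj (Subtype.ext h).symm), mul_zero]
    · intro h
      exact (h hi).elim
  exact Set.finite_coe_iff.1 hli.finite_of_isNoetherian

omit [LinearOrder Ω] in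
theorem exists_killed {I : Type*} (ev : Ω → E →ₗ[𝕜] 𝕜) (x : I → E) (f : I → E →L[𝕜] 𝕜)
    (hd : ∀ i, f i (x i) = 1) (ho : ∀ i j, i ≠ j → f i (x j) = 0) (ι : ℕ ↪ I) (A : Finset Ω) :
    ∃ w ∈ Submodule.span 𝕜 (range fun k => x (ι k)), w ≠ 0 ∧ ∀ α ∈ A, ev α w = 0 := by
  classical
  have hnli : ¬ LinearIndependent 𝕜 fun (k : ℕ) (α : A) => ev α (x (ι k)) := fun h =>
    not_finite_iff_infinite.2 inferInstance h.finite_of_isNoetherian
  rw [linearIndependent_iff'] at hnli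
  push Not at hnli
  obtain ⟨s, g, hg, i, hi, hne⟩ := hnli
  refine ⟨∑ k ∈ s, g k • x (ι k), Submodule.sum_mem _ fun k _ =>
    Submodule.smul_mem _ _ (Submodule.subset_span ⟨k, rfl⟩), fun h0 => hne ?_, fun α hα => ?_⟩
  · have := congrArg (f (ι i)) h0
    rw [map_sum, map_zero, Finset.sum_eq_single i] at this
    · rwa [map_smul, hd, smul_eq_mul, mul_one] at this
    · intro k _ hk
      rw [map_smul, ho _ _ (ι.injective.ne hk.symm), smul_zero]
    · intro h
      exact (h hi).elim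
  · have := congrFun hg ⟨α, hα⟩
    simpa [Finset.sum_apply] using this

theorem countable_index [Uncountable Ω] (hc : ∀ a : Ω, (Iio a).Countable)
    (q : Ω → ℕ → Ω) (hq2 : ∀ a ξ, ξ < a → ∃ n, q a n = ξ)
    (hq3 : ∀ b, ((fun a n => min (q a n) b) '' Ici b).Countable)
    (t : Ω → ℝ) (ht : Function.Injective t) (ht1 : ∀ a, |t a| ≤ 1 / 5)
    (hs : ∀ (N : ℕ) (a a' : Ω), a ≠ a' → ∃ ε > 0, ∀ b b', b ≠ a → b' ≠ a' →
      |t b - t a| < ε → |t b' - t a'| < ε →
      |t b - t a| ≤ |t b' - t a'| ^ N ∨ |t b' - t a'| ≤ |t b - t a| ^ N)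
    (T : E →ₗ[𝕜] (Ω → 𝕜)) (ev : Ω → E →ₗ[𝕜] 𝕜)
    (hev : ∀ z a, ev a z = T z a + ps (fun n => T z (q a n)) (t a : 𝕜))
    (hTb : ∀ z a, ‖T z a‖ ≤ 4 / 3 * ‖z‖)
    (hT0 : ∀ z (ε : ℝ), 0 < ε → {a | ε ≤ ‖T z a‖}.Finite)
    (h2 : ∀ z (C : ℝ), 0 ≤ C → (∀ a, ‖ev a z‖ ≤ C) → ‖z‖ ≤ C)
    {I : Type*} (x : I → E) (f : I → E →L[𝕜] 𝕜)
    (hd : ∀ i, f i (x i) = 1) (ho : ∀ i j, i ≠ j → f i (x j) = 0)
    (a : I → Ω →₀ 𝕜) (ha : ∀ i w, f i w = (a i).sum fun α c => c * ev α w) : Countable I := by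
  classical
  by_contra hI
  have hinf : Infinite I := by
    by_contra h
    have := not_infinite_iff_finite.1 h
    exact hI inferInstance
  let ι : ℕ ↪ I := Infinite.natEmbedding I
  have hsupp : ∀ z, (Function.support (T z)).Countable := by
    intro z
    refine (Set.countable_iUnion fun m : ℕ =>
      (hT0 z (1 / ((m : ℝ) + 1)) (by positivity)).countable).mono ?_
    intro α hα
    obtain ⟨m, hm⟩ := exists_nat_one_div_lt (norm_pos_iff.2 hα)
    exact mem_iUnion.2 ⟨m, hm.le⟩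
  obtain ⟨b₀, hb₀⟩ := exists_strict_bound hc (Set.countable_iUnion fun k => hsupp (x (ι k)))
  have hJ : ¬ ((range ι)ᶜ).Countable := by
    intro h
    have := (Set.countable_range ι).union h
    rw [union_compl_self] at this
    exact hI (Set.countable_univ_iff.1 this)
  have hM : ∀ j, ∃ M : ℕ, 0 < M ∧ ∀ α ∈ (a j).support, 1 / (M : ℝ) ≤ ‖a j α‖ ∧ ‖a j α‖ ≤ M := by
    intro j
    have e1 : ∀ᶠ M : ℕ in atTop, ∀ α ∈ (a j).support, 1 / (M : ℝ) ≤ ‖a j α‖ ∧ ‖a j α‖ ≤ M := by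
      rw [eventually_all_finset]
      intro α hα
      have hpos : 0 < ‖a j α‖ := norm_pos_iff.2 (Finsupp.mem_support_iff.1 hα)
      exact (tendsto_one_div_atTop_nhds_zero_nat.eventually (ge_mem_nhds hpos)).and
        (tendsto_natCast_atTop_atTop.eventually_ge_atTop _)
    exact ((eventually_gt_atTop 0).and e1).exists
  choose M hM0 hM using hM
  let g : I → Finset Ω × ℕ × ℕ := fun j =>
    ((a j).support.filter (· < b₀), ((a j).support.filter (b₀ ≤ ·)).card, M j)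
  have hg : (g '' (range ι)ᶜ).Countable := by
    have h1 : {R : Finset Ω | (R : Set Ω) ⊆ Iio b₀}.Countable := by
      refine Set.MapsTo.countable_of_injOn (f := fun R : Finset Ω => (R : Set Ω)) ?_
        Finset.coe_injective.injOn (Set.countable_ofPred_finite_subset (hc b₀))
      intro R hR
      exact ⟨R.finite_toSet, hR⟩
    refine (h1.prod countable_univ).mono ?_
    rintro _ ⟨j, -, rfl⟩
    refine ⟨?_, trivial⟩
    intro α hα
    exact (Finset.mem_filter.1 hα).2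
  obtain ⟨⟨R, n, M₀⟩, hJ₁⟩ := pigeon hJ g hg
  set J₁ := {j | j ∈ (range ι)ᶜ ∧ g j = (R, n, M₀)} with hJ₁def
  have hR : ∀ j : J₁, (a j).support.filter (· < b₀) = R := fun j => congrArg Prod.fst j.2.2
  have hn : ∀ j : J₁, ((a j).support.filter (b₀ ≤ ·)).card = n := fun j =>
    congrArg (fun p => p.2.1) j.2.2
  have hMM : ∀ j : J₁, M j = M₀ := fun j => congrArg (fun p => p.2.2) j.2.2
  let b : J₁ → Fin n → Ω := fun j => ((a j).support.filter (b₀ ≤ ·)).orderEmbOfFin (hn j)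
  have hbinj : ∀ j, Function.Injective (b j) := fun j =>
    (Finset.orderEmbOfFin _ (hn j)).injective
  have hbmem : ∀ (j : J₁) l, b j l ∈ (a j).support ∧ b₀ ≤ b j l := fun j l =>
    Finset.mem_filter.1 (Finset.orderEmbOfFin_mem _ (hn j) l)
  have hbrange : ∀ j : J₁, Finset.univ.image (b j) = (a j).support.filter (b₀ ≤ ·) := by
    intro j
    apply Finset.coe_injective
    rw [Finset.coe_image, Finset.coe_univ, image_univ]
    exact Finset.range_orderEmbOfFin _ (hn j)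
  have hJ₁' : ¬ (univ : Set J₁).Countable := fun h =>
    hJ₁ (Set.countable_coe_iff.1 (Set.countable_univ_iff.1 h))
  let g₂ : J₁ → Fin n → ℕ → Ω := fun j l k => min (q (b j l) k) b₀
  have hg₂ : (g₂ '' univ).Countable := by
    refine (Set.countable_univ_pi fun _ : Fin n => hq3 b₀).mono ?_
    rintro _ ⟨j, -, rfl⟩ l -
    exact ⟨b j l, (hbmem j l).2, rfl⟩
  obtain ⟨u, hJ₂⟩ := pigeon hJ₁' g₂ hg₂
  set J₂ := {j : J₁ | j ∈ univ ∧ g₂ j = u} with hJ₂def
  have hunc : ¬ (range fun j : J₂ => b j).Countable := by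
    intro h
    have h' : (b '' J₂).Countable := by rwa [image_eq_range]
    obtain ⟨β, hβ⟩ := pigeon hJ₂ b h'
    apply hβ
    have hfin := finite_support_fibre ev x a (fun i => by rw [← ha, hd])
      (fun i j hij => by rw [← ha, ho i j hij]) (R ∪ Finset.univ.image β)
    refine Set.MapsTo.countable_of_injOn (f := Subtype.val) ?_ Subtype.val_injective.injOn
      hfin.countable
    rintro j ⟨-, rfl⟩ α hα
    rw [hbrange, ← hR j, Finset.mem_union, Finset.mem_filter, Finset.mem_filter]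
    rcases lt_or_ge α b₀ with h | h
    · exact Or.inl ⟨hα, h⟩
    · exact Or.inr ⟨hα, h⟩
  have hM₀ : (0 : ℝ) < M₀ := by
    obtain ⟨j, -⟩ : J₂.Nonempty := by
      by_contra h
      rw [not_nonempty_iff_eq_empty] at h
      exact hJ₂ (h ▸ countable_empty)
    rw [← hMM j]
    exact_mod_cast hM0 j
  obtain ⟨j₀, hj₀⟩ := key_lemma t ht ht1 hs hM₀ (fun j : J₂ => b j) (fun j => hbinj j) hunc
    (fun j l => a j (b j l)) (fun j l => by rw [← hMM j]; exact (hM j _ (hbmem j l).1).1)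
    (fun j l => by rw [← hMM j]; exact (hM j _ (hbmem j l).1).2)
  obtain ⟨w, hw, hw0, hwA⟩ := exists_killed ev x f hd ho ι (a j₀).support
  have hy : ∀ α, b₀ ≤ α → T w α = 0 := by
    intro α hα
    clear hw0 hwA
    induction hw using Submodule.span_induction with
    | mem z hz =>
      obtain ⟨k, rfl⟩ := hz
      by_contra hne
      exact absurd (hb₀ α (mem_iUnion.2 ⟨k, hne⟩)) (not_lt.2 hα)
    | zero => simp
    | add z z' _ _ h h' => simp [h, h']
    | smul r z _ h => simp [h]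
  have hfw : ∀ j, j ∉ range ι → f j w = 0 := by
    intro j hj
    clear hw0 hwA hy
    induction hw using Submodule.span_induction with
    | mem z hz =>
      obtain ⟨k, rfl⟩ := hz
      exact ho _ _ fun h => hj ⟨k, h.symm⟩
    | zero => simp
    | add z z' _ _ h h' => simp [h, h']
    | smul r z _ h => simp [h]
  have hevb : ∀ (j : J₂) l, ev (b j l) w = ps (fun k => T w (u l k)) (t (b j l) : 𝕜) := by
    intro j l
    rw [hev, hy _ (hbmem j l).2, zero_add]
    congr 1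
    funext k
    rw [← j.2.2]
    simp only [g₂]
    rcases le_total (q (b j l) k) b₀ with h | h
    · rw [min_eq_left h]
    · rw [min_eq_right h, hy _ h, hy _ le_rfl]
  obtain ⟨ξ, hξ⟩ : ∃ ξ, T w ξ ≠ 0 := by
    by_contra hcon
    push Not at hcon
    apply hw0
    apply norm_le_zero_iff.1
    apply h2 _ _ le_rfl
    intro α
    rw [hev]
    simp [hcon, ps_zero]
  have hξb : ξ < b₀ := by
    by_contra h
    exact hξ (hy ξ (not_lt.1 h))
  obtain ⟨j, hj⟩ := hj₀ (fun l k => T w (u l k)) (4 / 3 * ‖w‖) (fun l k => hTb _ _)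
    (fun l h => by
      obtain ⟨k, hk⟩ := hq2 (b j₀ l) ξ (lt_of_lt_of_le hξb (hbmem j₀ l).2)
      have h3 := congrFun h k
      rw [← j₀.2.2] at h3
      simp only [g₂, hk, min_eq_left hξb.le] at h3
      exact hξ h3)
    (fun l => by rw [← hevb j₀ l]; exact hwA _ (hbmem j₀ l).1)
  apply hj
  have h3 := hfw j j.1.2.1
  rw [ha, Finsupp.sum, ← Finset.sum_filter_add_sum_filter_not _ (· < b₀), hR,
    Finset.sum_eq_zero, zero_add] at h3
  · simp only [not_lt] at h3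
    rw [← hbrange, Finset.sum_image (hbinj j).injOn] at h3
    simpa only [hevb] using h3
  · intro α hα
    rw [← hR j₀] at hα
    rw [hwA α (Finset.mem_filter.1 hα).1, mul_zero]

theorem abstract_main [Uncountable Ω] (hc : ∀ a : Ω, (Iio a).Countable)
    (q : Ω → ℕ → Ω) (hq1 : ∀ a n, q a n ≤ a) (hq2 : ∀ a ξ, ξ < a → ∃ n, q a n = ξ)
    (hq3 : ∀ b, ((fun a n => min (q a n) b) '' Ici b).Countable)
    (t : Ω → ℝ) (ht : Function.Injective t) (ht1 : ∀ a, |t a| ≤ 1 / 5)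
    (hs : ∀ (N : ℕ) (a a' : Ω), a ≠ a' → ∃ ε > 0, ∀ b b', b ≠ a → b' ≠ a' →
      |t b - t a| < ε → |t b' - t a'| < ε →
      |t b - t a| ≤ |t b' - t a'| ^ N ∨ |t b' - t a'| ≤ |t b - t a| ^ N)
    (T : E →ₗ[𝕜] (Ω → 𝕜)) (ev : Ω → E →ₗ[𝕜] 𝕜)
    (hev : ∀ z a, ev a z = T z a + ps (fun n => T z (q a n)) (t a : 𝕜))
    (hTb : ∀ z a, ‖T z a‖ ≤ 4 / 3 * ‖z‖)
    (hT0 : ∀ z (ε : ℝ), 0 < ε → {a | ε ≤ ‖T z a‖}.Finite)
    (h1 : ∀ z a, ‖ev a z‖ ≤ ‖z‖)
    (h2 : ∀ z (C : ℝ), 0 ≤ C → (∀ a, ‖ev a z‖ ≤ C) → ‖z‖ ≤ C)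
    (hsingle : ∀ b, ∃ z, T z = Pi.single b 1)
    {I : Type*} (x : I → E) (f : I → E →L[𝕜] 𝕜)
    (hd : ∀ i, f i (x i) = 1) (ho : ∀ i j, i ≠ j → f i (x j) = 0)
    (hx : ∀ i, ‖x i‖ = 1) (hf : ∀ i, ‖f i‖ = 1) :
    Countable I ∧ ∃ y, y ≠ 0 ∧ ∀ i, f i y = 0 := by
  have htn : ∀ a, ‖(t a : 𝕜)‖ ≤ 1 / 5 := fun a => by rw [RCLike.norm_ofReal]; exact ht1 a
  have hna : ∀ i, ∃ a : Ω →₀ 𝕜, ∀ w, f i w = a.sum fun α c => c * ev α w := by
    intro i
    refine norm_attaining ev h1 h2 (x i) (hx i) ?_ (f i) (hf i) (hd i)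
    refine (hT0 (x i) (1 / 3) (by norm_num)).subset ?_
    intro α hα
    have h3 := norm_ps_le (c := fun n => T (x i) (q α n)) (fun n => hTb _ _) (htn α)
    have h4 := norm_add_le (T (x i) α) (ps (fun n => T (x i) (q α n)) (t α : 𝕜))
    rw [← hev] at h4
    rw [hx] at h3
    simp only [mem_ofPred_eq] at hα ⊢
    linarith
  choose a ha using hna
  have hI := countable_index hc q hq2 hq3 t ht ht1 hs T ev hev hTb hT0 h2 x f hd ho a ha
  refine ⟨hI, ?_⟩
  obtain ⟨b, hb⟩ := exists_strict_bound hc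
    (Set.countable_iUnion fun i => (a i).support.countable_toSet)
  obtain ⟨z, hz⟩ := hsingle b
  refine ⟨z, ?_, fun i => ?_⟩
  · rintro rfl
    have := congrFun hz b
    simp at this
  · rw [ha, Finsupp.sum]
    apply Finset.sum_eq_zero
    intro α hα
    have hlt : α < b := hb α (mem_iUnion.2 ⟨i, hα⟩)
    have : (fun n => T z (q α n)) = fun _ => 0 := by
      funext n
      rw [hz, Pi.single_eq_of_ne (lt_of_le_of_lt (hq1 α n) hlt).ne]
    rw [hev, this, ps_zero, hz, Pi.single_eq_of_ne hlt.ne]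
    simp

end abstract

section concrete

variable {Ω : Type} (q : Ω → ℕ → Ω) (t : Ω → ℝ) (ht1 : ∀ a, |t a| ≤ 1 / 5)

include ht1 in
theorem norm_t_le (a : Ω) : ‖(t a : 𝕜)‖ ≤ 1 / 5 := by
  rw [RCLike.norm_ofReal]
  exact ht1 a

/-- The perturbation of the identity, as a linear map. -/
noncomputable def opS : lp (fun _ : Ω => 𝕜) ∞ →ₗ[𝕜] lp (fun _ : Ω => 𝕜) ∞ where
  toFun x := ⟨fun a => x a + ps (fun n => x (q a n)) (t a : 𝕜), memℓp_infty ⟨‖x‖ + ‖x‖ / 4, by
    rintro _ ⟨a, rfl⟩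
    exact (norm_add_le _ _).trans (add_le_add (lp.norm_apply_le_norm ENNReal.top_ne_zero x a)
      (norm_ps_le (fun n => lp.norm_apply_le_norm ENNReal.top_ne_zero x _) (norm_t_le t ht1 a)))⟩⟩
  map_add' x y := by
    apply lp.ext
    funext a
    change (x + y) a + ps (fun n => (x + y) (q a n)) (t a : 𝕜) =
      (x a + ps (fun n => x (q a n)) (t a : 𝕜)) + (y a + ps (fun n => y (q a n)) (t a : 𝕜))
    have hx := ps_summable (c := fun n => x (q a n))
      (fun n => lp.norm_apply_le_norm ENNReal.top_ne_zero x _) (norm_t_le t ht1 a)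
    have hy := ps_summable (c := fun n => y (q a n))
      (fun n => lp.norm_apply_le_norm ENNReal.top_ne_zero y _) (norm_t_le t ht1 a)
    simp only [ps, lp.coeFn_add, Pi.add_apply, mul_add]
    rw [hx.tsum_add hy]
    ring
  map_smul' r x := by
    apply lp.ext
    funext a
    change (r • x) a + ps (fun n => (r • x) (q a n)) (t a : 𝕜) =
      r • (x a + ps (fun n => x (q a n)) (t a : 𝕜))
    simp only [ps, lp.coeFn_smul, Pi.smul_apply, smul_eq_mul, mul_add]
    rw [← tsum_mul_left]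
    congr 2
    funext n
    ring

theorem opS_apply (x : lp (fun _ : Ω => 𝕜) ∞) (a : Ω) :
    opS (𝕜 := 𝕜) q t ht1 x a = x a + ps (fun n => x (q a n)) (t a : 𝕜) := rfl

theorem norm_opS_le (x : lp (fun _ : Ω => 𝕜) ∞) : ‖opS (𝕜 := 𝕜) q t ht1 x‖ ≤ 2 * ‖x‖ := by
  apply lp.norm_le_of_forall_le (by positivity)
  intro a
  rw [opS_apply]
  have h1 := lp.norm_apply_le_norm ENNReal.top_ne_zero x a
  have h2 := norm_ps_le (c := fun n => x (q a n))
    (fun n => lp.norm_apply_le_norm ENNReal.top_ne_zero x _) (norm_t_le t ht1 a)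
  have h3 := norm_add_le (x a) (ps (fun n => x (q a n)) (t a : 𝕜))
  linarith [norm_nonneg x]

theorem norm_le_opS (x : lp (fun _ : Ω => 𝕜) ∞) : ‖x‖ ≤ 4 / 3 * ‖opS (𝕜 := 𝕜) q t ht1 x‖ := by
  have : ‖x‖ ≤ ‖opS (𝕜 := 𝕜) q t ht1 x‖ + ‖x‖ / 4 := by
    apply lp.norm_le_of_forall_le (by positivity)
    intro a
    have h1 := lp.norm_apply_le_norm ENNReal.top_ne_zero (opS (𝕜 := 𝕜) q t ht1 x) a
    rw [opS_apply] at h1
    have h2 := norm_ps_le (c := fun n => x (q a n))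
      (fun n => lp.norm_apply_le_norm ENNReal.top_ne_zero x _) (norm_t_le t ht1 a)
    have h3 := norm_sub_le (x a + ps (fun n => x (q a n)) (t a : 𝕜))
      (ps (fun n => x (q a n)) (t a : 𝕜))
    rw [add_sub_cancel_right] at h3
    linarith
  linarith

variable (𝕜 Ω) in
/-- The space `c₀(Ω)` inside `ℓ∞(Ω)`. -/
def czero : Submodule 𝕜 (lp (fun _ : Ω => 𝕜) ∞) where
  carrier := {x | ∀ ε : ℝ, 0 < ε → {a | ε ≤ ‖x a‖}.Finite}
  add_mem' := by
    intro x y hx hy ε hε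
    refine ((hx (ε / 2) (by linarith)).union (hy (ε / 2) (by linarith))).subset ?_
    intro a ha
    simp only [mem_ofPred_eq, lp.coeFn_add, Pi.add_apply, mem_union] at ha ⊢
    by_contra h
    push Not at h
    linarith [norm_add_le (x a) (y a), h.1, h.2]
  zero_mem' := by
    intro ε hε
    simp [not_le.2 hε]
  smul_mem' := by
    intro r x hx ε hε
    refine (hx (ε / (‖r‖ + 1)) (by positivity)).subset ?_
    intro a ha
    simp only [mem_ofPred_eq, lp.coeFn_smul, Pi.smul_apply, norm_smul] at ha ⊢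
    rw [div_le_iff₀ (by positivity)]
    nlinarith [norm_nonneg (x a)]

theorem isClosed_czero : IsClosed (czero 𝕜 Ω : Set (lp (fun _ : Ω => 𝕜) ∞)) := by
  apply isClosed_of_closure_subset
  intro x hx ε hε
  obtain ⟨y, hy, hxy⟩ := Metric.mem_closure_iff.1 hx (ε / 2) (by linarith)
  refine (hy (ε / 2) (by linarith)).subset ?_
  intro a ha
  simp only [mem_ofPred_eq] at ha ⊢
  rw [dist_eq_norm] at hxy
  have h1 := lp.norm_apply_le_norm ENNReal.top_ne_zero (x - y) a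
  simp only [lp.coeFn_sub, Pi.sub_apply] at h1
  have h2 := norm_add_le (x a - y a) (y a)
  rw [sub_add_cancel] at h2
  linarith

theorem opS_injective : Function.Injective (opS (𝕜 := 𝕜) q t ht1) := by
  rw [injective_iff_map_eq_zero]
  intro x hx
  have := norm_le_opS q t ht1 x
  rw [hx, norm_zero, mul_zero] at this
  exact norm_le_zero_iff.1 this

theorem isClosed_map : IsClosed (((czero 𝕜 Ω).map (opS q t ht1) :
    Submodule 𝕜 (lp (fun _ : Ω => 𝕜) ∞)) : Set (lp (fun _ : Ω => 𝕜) ∞)) := by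
  let S := (opS (𝕜 := 𝕜) q t ht1).mkContinuous 2 (norm_opS_le q t ht1)
  have hanti : AntilipschitzWith (4 / 3 : NNReal) S :=
    S.antilipschitz_of_bound fun x => by
      have h := norm_le_opS q t ht1 x
      push_cast
      exact h
  exact (hanti.isClosedEmbedding S.uniformContinuous).isClosedMap _ isClosed_czero

end concrete

theorem exists_omega : ∃ (Ω : Type) (_ : LinearOrder Ω) (_ : WellFoundedLT Ω) (_ : Uncountable Ω),
    (∀ a : Ω, (Iio a).Countable) ∧ ∃ ι : Ω → Set ℕ, Function.Injective ι := by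
  have hcard : Cardinal.mk (Cardinal.aleph 1).ord.ToType = Cardinal.aleph.{0} 1 := by simp
  refine ⟨(Cardinal.aleph 1).ord.ToType, inferInstance, inferInstance, ?_, fun a => ?_, ?_⟩
  · rw [← Cardinal.aleph0_lt_mk_iff, hcard]
    exact Cardinal.aleph0_lt_aleph_one
  · rw [← Cardinal.le_aleph0_iff_set_countable, ← Cardinal.lt_aleph_one_iff]
    have := Cardinal.mk_Iio_lt a (by simp)
    rwa [hcard] at this
  · have : Cardinal.mk (Cardinal.aleph 1).ord.ToType ≤ Cardinal.mk (Set ℕ) := by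
      rw [hcard]
      simpa using Cardinal.aleph_one_le_continuum
    obtain ⟨e⟩ := Cardinal.le_def _ _ |>.1 this
    exact ⟨e, e.injective⟩

theorem exists_space (𝕜 : Type) [RCLike 𝕜] :
    ∃ (E : Type) (_ : NormedAddCommGroup E) (_ : NormedSpace 𝕜 E) (_ : CompleteSpace E),
      ∀ (I : Type*) (x : I → E) (f : I → E →L[𝕜] 𝕜),
        (∀ i, f i (x i) = 1) → (∀ i j, i ≠ j → f i (x j) = 0) → (∀ i, ‖x i‖ = 1) →
        (∀ i, ‖f i‖ = 1) → Countable I ∧ ∃ y, y ≠ 0 ∧ ∀ i, f i y = 0 := by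
  classical
  obtain ⟨Ω, _, _, _, hc, ι, hι⟩ := exists_omega
  obtain ⟨q, hq1, hq2, hq3⟩ := exists_enum hc
  obtain ⟨t, ht, ht1, hs⟩ := exists_scale ι hι
  let E := (czero 𝕜 Ω).map (opS q t ht1)
  let e : czero 𝕜 Ω ≃ₗ[𝕜] E := Submodule.equivMapOfInjective _ (opS_injective q t ht1) _
  have he : ∀ z : E, opS (𝕜 := 𝕜) q t ht1 (e.symm z) = z := fun z => by
    have := Submodule.coe_equivMapOfInjective_apply _ (opS_injective q t ht1) _ (e.symm z)
    rw [← this]
    exact congrArg Subtype.val (e.apply_symm_apply z)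
  let cf : lp (fun _ : Ω => 𝕜) ∞ →ₗ[𝕜] (Ω → 𝕜) :=
    { toFun := fun x => x
      map_add' := lp.coeFn_add
      map_smul' := lp.coeFn_smul }
  let T : E →ₗ[𝕜] (Ω → 𝕜) := cf ∘ₗ (czero 𝕜 Ω).subtype ∘ₗ e.symm.toLinearMap
  let ev : Ω → E →ₗ[𝕜] 𝕜 := fun a => LinearMap.proj a ∘ₗ cf ∘ₗ E.subtype
  refine ⟨E, inferInstance, inferInstance, (isClosed_map q t ht1).completeSpace_coe, ?_⟩
  intro I x f hd ho hx hf
  refine abstract_main hc q hq1 hq2 hq3 t ht ht1 hs T ev ?_ ?_ ?_ ?_ ?_ ?_ x f hd ho hx hf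
  · intro z a
    change (z : lp (fun _ : Ω => 𝕜) ∞) a = _
    conv_lhs => rw [← he z, opS_apply]
    rfl
  · intro z a
    have h1 := lp.norm_apply_le_norm ENNReal.top_ne_zero (e.symm z : lp (fun _ : Ω => 𝕜) ∞) a
    have h2 := norm_le_opS q t ht1 (e.symm z : lp (fun _ : Ω => 𝕜) ∞)
    rw [he] at h2
    exact h1.trans h2
  · intro z ε hε
    exact (e.symm z).2 ε hε
  · intro z a
    exact lp.norm_apply_le_norm ENNReal.top_ne_zero (z : lp (fun _ : Ω => 𝕜) ∞) a
  · intro z C hC h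
    exact lp.norm_le_of_forall_le (f := (z : lp (fun _ : Ω => 𝕜) ∞)) hC h
  · intro b
    refine ⟨e ⟨lp.single ∞ b 1, fun ε hε => (finite_singleton b).subset ?_⟩, ?_⟩
    · intro a ha
      by_contra hne
      simp only [mem_ofPred_eq, lp.coeFn_single] at ha
      rw [Pi.single_eq_of_ne hne, norm_zero] at ha
      linarith
    · simp only [T, cf, LinearMap.comp_apply, LinearEquiv.coe_coe, LinearEquiv.symm_apply_apply,
        Submodule.subtype_apply, LinearMap.coe_mk, AddHom.coe_mk]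
      exact lp.coeFn_single _ _ _

end Pool.Agent.P.MP_735d18_an
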