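import Pool.Agent.P.MP_735d18_an.Main

/-! The threshold for uncountable Auerbach systems in renormings of `c₀(Γ)`. -/

namespace Pool.Agent.P.MP_735d18_an.Thr

open Set Filter Topology Cardinal
open scoped ENNReal ZeroAtInfty

universe u

/-- Free set lemma for countable set mappings on a set of size above `ℵ₁`. -/
theorem exists_free {Γ : Type} (hΓ : ℵ₁ < #Γ) (S : Γ → Set Γ) (hS : ∀ a, (S a).Countable) :
    ∃ F : Set Γ, ¬ F.Countable ∧ ∀ a ∈ F, ∀ b ∈ F, a ≠ b → b ∉ S a := by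
  classical
  let bad : Set Γ → Prop := fun C => C.Countable ∧ C.Nonempty ∧ #{a | Disjoint (S a) C} ≤ ℵ₁
  obtain ⟨𝒞, h𝒞⟩ := zorn_subset {𝒞 : Set (Set Γ) | (∀ C ∈ 𝒞, bad C) ∧ 𝒞.PairwiseDisjoint id}
    (fun c hc hch => ⟨⋃₀ c, ⟨fun C ⟨s, hs, hC⟩ => (hc hs).1 C hC,
      fun C ⟨s, hs, hC⟩ D ⟨t, ht, hD⟩ hne => by
        rcases hch.total hs ht with h | h
        · exact (hc ht).2 (h hC) hD hne
        · exact (hc hs).2 hC (h hD) hne⟩, fun s hs => subset_sUnion_of_mem hs⟩)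
  have hcount : 𝒞.Countable := by
    by_contra hn
    have h1 : ℵ₁ ≤ #𝒞 := by
      rw [← Cardinal.le_aleph0_iff_set_countable, not_le] at hn
      exact Cardinal.aleph_one_le_iff.2 hn
    obtain ⟨𝒟, h𝒟, h2⟩ := Cardinal.le_mk_iff_exists_subset.1 h1
    have h3 : #(⋃ C ∈ 𝒟, {a | Disjoint (S a) C}) ≤ ℵ₁ := by
      refine (Cardinal.mk_biUnion_le _ _).trans ?_
      rw [h2]
      refine (mul_le_mul_right (ciSup_le' fun C : 𝒟 => (h𝒞.prop.1 C (h𝒟 C.2)).2.2) _).trans ?_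
      simp
    obtain ⟨a, ha⟩ : ∃ a, a ∉ ⋃ C ∈ 𝒟, {a | Disjoint (S a) C} := by
      by_contra h
      push Not at h
      rw [eq_univ_of_forall h, Cardinal.mk_univ] at h3
      exact absurd hΓ (not_lt.2 h3)
    simp only [mem_iUnion, mem_ofPred_eq, not_exists, Set.not_disjoint_iff] at ha
    choose g hg1 hg2 using ha
    have h4 : #𝒟 ≤ #(S a) := Cardinal.mk_le_of_injective
      (f := fun C : 𝒟 => (⟨g C.1 C.2, hg1 _ _⟩ : S a)) fun C D h => by
        by_contra hne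
        have h' : g C.1 C.2 = g D.1 D.2 := congrArg Subtype.val h
        have hd : Disjoint C.1 D.1 := h𝒞.prop.2 (h𝒟 C.2) (h𝒟 D.2) fun e => hne (Subtype.ext e)
        exact Set.disjoint_left.1 hd (hg2 C.1 C.2) (h' ▸ hg2 D.1 D.2)
    rw [h2] at h4
    exact absurd (h4.trans (Cardinal.le_aleph0_iff_set_countable.2 (hS a)))
      (not_le.2 Cardinal.aleph0_lt_aleph_one)
  have hR : (⋃₀ 𝒞).Countable := hcount.sUnion fun C hC => (h𝒞.prop.1 C hC).1
  obtain ⟨F, hF⟩ := zorn_subset {F : Set Γ | Disjoint F (⋃₀ 𝒞) ∧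
      ∀ a ∈ F, ∀ b ∈ F, a ≠ b → b ∉ S a}
    (fun c hc hch => ⟨⋃₀ c, ⟨disjoint_sUnion_left.2 fun s hs => (hc hs).1,
      fun a ⟨s, hs, ha⟩ b ⟨t, ht, hb⟩ => by
        rcases hch.total hs ht with h | h
        · exact (hc ht).2 a (h ha) b hb
        · exact (hc hs).2 a ha b (h hb)⟩, fun s hs => subset_sUnion_of_mem hs⟩)
  refine ⟨F, fun hFc => ?_, hF.prop.2⟩
  have hbig : ℵ₁ < #{a | Disjoint (S a) F} := by
    rcases F.eq_empty_or_nonempty with h | h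
    · simpa [h] using hΓ
    · by_contra hle
      have hmem : insert F 𝒞 ∈ {𝒞 : Set (Set Γ) | (∀ C ∈ 𝒞, bad C) ∧ 𝒞.PairwiseDisjoint id} := by
        refine ⟨fun C hC => ?_, h𝒞.prop.2.insert fun C hC _ =>
          hF.prop.1.mono_right (subset_sUnion_of_mem hC)⟩
        rcases hC with rfl | hC
        · exact ⟨hFc, h, not_lt.1 hle⟩
        · exact h𝒞.prop.1 C hC
      have := h𝒞.2 hmem (subset_insert _ _) (mem_insert _ _)
      obtain ⟨a, ha⟩ := h
      exact Set.disjoint_left.1 hF.prop.1 ha ⟨F, this, ha⟩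
  have hsm : (⋃₀ 𝒞 ∪ F ∪ ⋃ b ∈ F, S b).Countable :=
    (hR.union hFc).union (hFc.biUnion fun b _ => hS b)
  obtain ⟨a, ha1, ha2⟩ : ∃ a, Disjoint (S a) F ∧ a ∉ ⋃₀ 𝒞 ∪ F ∪ ⋃ b ∈ F, S b := by
    by_contra h
    push Not at h
    have := (Cardinal.mk_le_mk_of_subset (show {a | Disjoint (S a) F} ⊆ _ from h)).trans
      (Cardinal.le_aleph0_iff_set_countable.2 hsm)
    exact absurd (hbig.trans_le this) (not_lt.2 Cardinal.aleph0_lt_aleph_one.le)
  simp only [mem_union, not_or, mem_iUnion, not_exists] at ha2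
  refine ha2.1.2 (hF.2 (y := insert a F) ⟨disjoint_insert_left.2 ⟨ha2.1.1, hF.prop.1⟩, ?_⟩
    (subset_insert _ _) (mem_insert _ _))
  rintro x (rfl | hx) y (rfl | hy) hxy
  · exact absurd rfl hxy
  · exact fun h => Set.disjoint_left.1 ha1 h hy
  · exact ha2.2 x hx
  · exact hF.prop.2 x hx y hy hxy

variable {𝕜 : Type} [RCLike 𝕜] {Γ : Type} [TopologicalSpace Γ] [DiscreteTopology Γ]

open Classical in
/-- A finitely supported element of `c₀(Γ)`. -/
noncomputable def fin (s : Finset Γ) (c : Γ → 𝕜) : C₀(Γ, 𝕜) where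
  toFun a := if a ∈ s then c a else 0
  continuous_toFun := continuous_of_discreteTopology
  zero_at_infty' := by
    rw [cocompact_eq_cofinite]
    refine tendsto_const_nhds.congr' (s.finite_toSet.subset fun a ha => ?_)
    by_contra h
    exact ha (if_neg h).symm

omit [DiscreteTopology Γ] in
theorem norm_apply_le (x : C₀(Γ, 𝕜)) (a : Γ) : ‖x a‖ ≤ ‖x‖ := x.toBCF.norm_coe_le_norm a

omit [DiscreteTopology Γ] in
theorem norm_le (x : C₀(Γ, 𝕜)) {C : ℝ} (hC : 0 ≤ C) (h : ∀ a, ‖x a‖ ≤ C) : ‖x‖ ≤ C :=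
  (BoundedContinuousFunction.norm_le (f := x.toBCF) hC).2 h

theorem fin_eq (s : Finset Γ) (c : Γ → 𝕜) : fin s c = ∑ a ∈ s, c a • fin {a} (1 : Γ → 𝕜) := by
  classical
  induction s using Finset.induction_on with
  | empty => ext a; simp [fin]
  | insert b s hb ih =>
    rw [Finset.sum_insert hb, ← ih]
    ext a
    by_cases h : a = b
    · subst h; simp [fin, hb]
    · simp [fin, h]

theorem countable_supp (f : StrongDual 𝕜 C₀(Γ, 𝕜)) : {a | f (fin {a} 1) ≠ 0}.Countable := by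
  have hs : Summable fun a => ‖f (fin {a} 1)‖ := by
    refine summable_of_sum_le (c := ‖f‖) (fun _ => norm_nonneg _) fun s => ?_
    choose c hc1 hc2 using fun a => RCLike.exists_norm_eq_mul_self (f (fin {a} 1))
    have h1 : ‖fin s c‖ ≤ 1 := norm_le _ zero_le_one fun a => by
      simp only [fin, ZeroAtInftyContinuousMap.coe_mk]
      split_ifs
      · exact (hc1 a).le
      · simp
    have h2 : f (fin s c) = ((∑ a ∈ s, ‖f (fin {a} 1)‖ : ℝ) : 𝕜) := by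
      rw [fin_eq, map_sum, RCLike.ofReal_sum]
      exact Finset.sum_congr rfl fun a _ => by rw [map_smul, smul_eq_mul, hc2]
    have h3 := f.le_opNorm (fin s c)
    rw [h2, RCLike.norm_ofReal] at h3
    exact (le_abs_self _).trans (h3.trans (mul_le_of_le_one_right (norm_nonneg _) h1))
  exact hs.countable_support.mono fun a ha => by simpa using ha

theorem large (hΓ : ℵ₁ < #Γ) (E : Type) [NormedAddCommGroup E] [NormedSpace 𝕜 E]
    (T : E ≃L[𝕜] C₀(Γ, 𝕜)) : ∃ (I : Type) (x : I → E) (f : I → StrongDual 𝕜 E),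
      (∀ i, f i (x i) = 1) ∧ (∀ i j, i ≠ j → f i (x j) = 0) ∧ (∀ i, ‖x i‖ = 1) ∧
      (∀ i, ‖f i‖ = 1) ∧ ¬ Countable I := by
  let v : Γ → E := fun a => T.symm (fin {a} 1)
  have hv : ∀ a, v a ≠ 0 := fun a h => by
    have h1 : (fin {a} (1 : Γ → 𝕜)) = 0 := by simpa [v] using h
    have := congrArg (fun x : C₀(Γ, 𝕜) => x a) h1
    simp [fin] at this
  choose g hg1 hg2 using fun a => exists_dual_vector 𝕜 (v a) (norm_ne_zero_iff.2 (hv a))
  obtain ⟨F, hF1, hF2⟩ := exists_free hΓ (fun a => {b | g a (v b) ≠ 0})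
    fun a => countable_supp ((g a).comp (T.symm : C₀(Γ, 𝕜) →L[𝕜] E))
  refine ⟨F, fun i => ((‖v i‖ : 𝕜))⁻¹ • v i, fun i => g i, fun i => ?_, fun i j hij => ?_,
    fun i => ?_, fun i => hg1 i, hF1⟩
  · rw [map_smul, hg2, smul_eq_mul, inv_mul_cancel₀]
    simpa using hv i
  · have := hF2 i i.2 j j.2 fun h => hij (Subtype.ext h)
    simp only [mem_ofPred_eq, not_not] at this
    rw [map_smul, this, smul_zero]
  · rw [norm_smul, norm_inv, RCLike.norm_ofReal, abs_norm, inv_mul_cancel₀]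
    simpa using hv i

/-- The inclusion of `c₀(Γ)` in `ℓ∞(Γ)`. -/
noncomputable def incl : C₀(Γ, 𝕜) →ₗ[𝕜] lp (fun _ : Γ => 𝕜) ∞ where
  toFun x := ⟨fun a => x a, memℓp_infty ⟨‖x‖, by rintro _ ⟨a, rfl⟩; exact norm_apply_le x a⟩⟩
  map_add' _ _ := rfl
  map_smul' _ _ := rfl

omit [DiscreteTopology Γ] in
theorem norm_incl (x : C₀(Γ, 𝕜)) : ‖incl (𝕜 := 𝕜) (Γ := Γ) x‖ = ‖x‖ :=
  le_antisymm (lp.norm_le_of_forall_le (norm_nonneg _) (norm_apply_le x))
    (norm_le x (norm_nonneg _) fun a => lp.norm_apply_le_norm ENNReal.top_ne_zero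
      (incl (𝕜 := 𝕜) (Γ := Γ) x) a)

theorem small (hΓ : #Γ = ℵ₁) : ∃ (E : Type) (_ : NormedAddCommGroup E) (_ : NormedSpace 𝕜 E),
    Nonempty (E ≃L[𝕜] C₀(Γ, 𝕜)) ∧ ∀ (I : Type) (x : I → E) (f : I → StrongDual 𝕜 E),
      (∀ i, f i (x i) = 1) → (∀ i j, i ≠ j → f i (x j) = 0) → (∀ i, ‖x i‖ = 1) →
      (∀ i, ‖f i‖ = 1) → Countable I := by
  classical
  obtain ⟨_, _, hord⟩ := Cardinal.exists_ord_eq_type_lt Γ
  have : Uncountable Γ := by
    rw [← Cardinal.aleph0_lt_mk_iff, hΓ]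
    exact Cardinal.aleph0_lt_aleph_one
  have hc : ∀ a : Γ, (Iio a).Countable := fun a => by
    rw [← Cardinal.le_aleph0_iff_set_countable, ← Cardinal.lt_aleph_one_iff, ← hΓ]
    exact Cardinal.mk_Iio_lt a hord
  obtain ⟨ι⟩ : Nonempty (Γ ↪ Set ℕ) := by
    rw [← Cardinal.le_def, hΓ]
    simpa using Cardinal.aleph_one_le_continuum
  obtain ⟨q, hq1, hq2, hq3⟩ := exists_enum hc
  obtain ⟨t, ht, ht1, hs⟩ := exists_scale ι ι.injective
  let S : C₀(Γ, 𝕜) →ₗ[𝕜] lp (fun _ : Γ => 𝕜) ∞ := opS q t ht1 ∘ₗ incl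
  have hS1 : ∀ x, ‖S x‖ ≤ 2 * ‖x‖ := fun x => norm_incl x ▸ norm_opS_le q t ht1 (incl (𝕜 := 𝕜) (Γ := Γ) x)
  have hS2 : ∀ x, ‖x‖ ≤ 4 / 3 * ‖S x‖ := fun x => norm_incl x ▸ norm_le_opS q t ht1 (incl (𝕜 := 𝕜) (Γ := Γ) x)
  have hSi : Function.Injective S := (injective_iff_map_eq_zero S).2 fun x hx => by
    have := hS2 x
    rw [hx, norm_zero, mul_zero] at this
    exact norm_le_zero_iff.1 this
  let E := LinearMap.range S
  let e : C₀(Γ, 𝕜) ≃ₗ[𝕜] E := LinearEquiv.ofInjective S hSi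
  have he : ∀ z : E, S (e.symm z) = z := fun z =>
    congrArg Subtype.val (e.apply_symm_apply z)
  let cf : lp (fun _ : Γ => 𝕜) ∞ →ₗ[𝕜] (Γ → 𝕜) :=
    { toFun := fun x => x
      map_add' := lp.coeFn_add
      map_smul' := lp.coeFn_smul }
  let T : E →ₗ[𝕜] (Γ → 𝕜) := cf ∘ₗ incl ∘ₗ e.symm.toLinearMap
  let ev : Γ → E →ₗ[𝕜] 𝕜 := fun a => LinearMap.proj a ∘ₗ cf ∘ₗ E.subtype
  refine ⟨E, inferInstance, inferInstance, ⟨(e.toContinuousLinearEquivOfBounds 2 (4 / 3) hS1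
    fun z => ?_).symm⟩, fun I x f hd ho hx hf => ?_⟩
  · have := hS2 (e.symm z)
    rwa [he] at this
  refine (abstract_main hc q hq1 hq2 hq3 t ht ht1 hs T ev ?_ ?_ ?_ ?_ ?_ ?_ x f hd ho hx hf).1
  · intro z a
    change (z : lp (fun _ : Γ => 𝕜) ∞) a = _
    conv_lhs => rw [← he z]
    rfl
  · intro z a
    have h2 := hS2 (e.symm z)
    rw [he] at h2
    exact (norm_apply_le (e.symm z) a).trans h2
  · intro z ε hε
    have h := (e.symm z).zero_at_infty'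
    rw [cocompact_eq_cofinite] at h
    have := (NormedAddGroup.tendsto_nhds_zero.1 h) ε hε
    exact (Filter.eventually_cofinite.1 this).subset fun a ha => not_lt.2 ha
  · intro z a
    exact lp.norm_apply_le_norm ENNReal.top_ne_zero (z : lp (fun _ : Γ => 𝕜) ∞) a
  · intro z C hC h
    exact lp.norm_le_of_forall_le (f := (z : lp (fun _ : Γ => 𝕜) ∞)) hC h
  · intro b
    refine ⟨e (fin {b} 1), funext fun a => ?_⟩
    simp only [T, cf, LinearMap.comp_apply, LinearEquiv.coe_coe, LinearEquiv.symm_apply_apply,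
      LinearMap.coe_mk, AddHom.coe_mk]
    change (fin {b} (1 : Γ → 𝕜)) a = _
    simp [fin, Pi.single_apply]

end Pool.Agent.P.MP_735d18_an.Thr
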